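import Mathlib

set_option autoImplicit false

namespace Pool.Agent.Results.MP_308823_co.Gamma

open Polynomial

/-- Number of lattice points of the `q`-th dilate of the cyclic block polytope. -/
noncomputable def L (m a q : ℕ) : ℕ :=
  Set.ncard {x : ZMod m → Fin a → ℕ | ∀ i, ∑ j, x i j + ∑ j, x (i + 1) j ≤ q}

def IsNumerator (m a : ℕ) (h : ℝ[X]) : Prop :=
  (h : PowerSeries ℝ) =
    (PowerSeries.mk fun q => (L m a q : ℝ)) * (1 - PowerSeries.X ^ 2) ^ (a * m + 1)

def GammaNonneg (h : ℝ[X]) : Prop :=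
  ∃ γ : ℕ → ℝ, (∀ j, 0 ≤ γ j) ∧ h = ∑ j ∈ Finset.range (h.natDegree / 2 + 1),
    C (γ j) * X ^ j * (1 + X) ^ (h.natDegree - 2 * j)

def cnt (q : ℕ) : Finset (ℕ × ℕ × ℕ) :=
  (Finset.range (q + 1) ×ˢ Finset.range (q + 1) ×ˢ Finset.range (q + 1)).filter
    fun p => p.1 + p.2.1 ≤ q ∧ p.2.1 + p.2.2 ≤ q ∧ p.2.2 + p.1 ≤ q

lemma L_eq (q : ℕ) : L 3 1 q = (cnt q).card := by
  rw [L, ← Set.ncard_coe_finset]
  refine Set.ncard_congr (fun x _ => (x 0 0, x 1 0, x 2 0)) ?_ ?_ ?_
  · intro x hx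
    have h0 : x 0 0 + x 1 0 ≤ q := by simpa using hx 0
    have h1 : x 1 0 + x (1 + 1) 0 ≤ q := by simpa using hx 1
    have h2 : x 2 0 + x (2 + 1) 0 ≤ q := by simpa using hx 2
    rw [show (1 + 1 : ZMod 3) = 2 from rfl] at h1
    rw [show (2 + 1 : ZMod 3) = 0 from rfl] at h2
    simp only [cnt, Finset.coe_filter, Finset.mem_product, Finset.mem_range, Set.mem_ofPred_eq]
    omega
  · intro x y _ _ h
    simp only [Prod.mk.injEq] at h
    funext i j
    fin_cases i <;> fin_cases j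
    exacts [h.1, h.2.1, h.2.2]
  · rintro ⟨a, b, c⟩ h
    simp only [cnt, Finset.coe_filter, Finset.mem_product, Finset.mem_range,
      Set.mem_ofPred_eq] at h
    refine ⟨fun i _ => (![a, b, c] : Fin 3 → ℕ) i, fun i => ?_, rfl⟩
    simp only [Finset.univ_unique, Finset.sum_singleton]
    fin_cases i
    exacts [h.2.1, h.2.2.1, h.2.2.2]

def tri (n : ℕ) : Finset (ℕ × ℕ) :=
  (Finset.range (n + 1) ×ˢ Finset.range (n + 1)).filter fun p => p.1 + p.2 ≤ n

lemma tri_card (n : ℕ) : 2 * (tri n).card = (n + 1) * (n + 2) := by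
  induction n with
  | zero => rfl
  | succ n ih =>
    have e : tri (n + 1) = tri n ∪ Finset.HasAntidiagonal.antidiagonal (n + 1) := by
      ext ⟨a, b⟩; simp [tri]; omega
    rw [e, Finset.card_union_of_disjoint, Finset.Nat.card_antidiagonal, mul_add, ih]
    · ring
    · rw [Finset.disjoint_left]; rintro ⟨a, b⟩; simp [tri]; omega

lemma rec2 (q : ℕ) : (cnt (q + 2)).card =
    (cnt q).card + (tri (q + 2)).card + (tri (q + 1)).card + (tri q).card := by
  have e : cnt (q + 2) = (((cnt q).image fun p => (p.1 + 1, p.2.1 + 1, p.2.2 + 1)) ∪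
      ((tri (q + 2)).image fun p => (0, p.1, p.2))) ∪
      ((tri (q + 1)).image fun p => (p.1 + 1, 0, p.2)) ∪
      ((tri q).image fun p => (p.1 + 1, p.2 + 1, 0)) := by
    ext ⟨a, b, c⟩
    simp only [cnt, tri, Finset.mem_union, Finset.mem_image, Finset.mem_filter, Finset.mem_product,
      Finset.mem_range, Prod.mk.injEq, Prod.exists]
    constructor
    · intro h
      rcases a with _ | a
      · exact Or.inl (Or.inl (Or.inr ⟨b, c, by omega⟩))
      · rcases b with _ | b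
        · exact Or.inl (Or.inr ⟨a, c, by omega⟩)
        · rcases c with _ | c
          · exact Or.inr ⟨a, b, by omega⟩
          · exact Or.inl (Or.inl (Or.inl ⟨a, b, c, by omega⟩))
    · rintro (((⟨x, y, z, h⟩ | ⟨x, y, h⟩) | ⟨x, y, h⟩) | ⟨x, y, h⟩) <;> omega
  rw [e, Finset.card_union_of_disjoint, Finset.card_union_of_disjoint,
    Finset.card_union_of_disjoint]
  · repeat rw [Finset.card_image_of_injective]
    all_goals
      intro x y h
      simp only [Prod.ext_iff] at h ⊢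
      omega
  all_goals
    rw [Finset.disjoint_left]
    rintro ⟨a, b, c⟩
    simp only [Finset.mem_union, Finset.mem_image, Prod.mk.injEq, Prod.exists]
  · rintro ⟨x, y, z, -, h⟩ ⟨_, _, -, h'⟩; omega
  · rintro (⟨x, y, z, -, h⟩ | ⟨x, y, -, h⟩) ⟨_, _, -, h'⟩ <;> omega
  · rintro ((⟨x, y, z, -, h⟩ | ⟨x, y, -, h⟩) | ⟨x, y, -, h⟩) ⟨_, _, -, h'⟩ <;> omega

lemma s1 : (PowerSeries.mk fun q => (L 3 1 q : ℝ)) * (1 - PowerSeries.X ^ 2) =
    PowerSeries.mk fun n => (3 * (n : ℝ) ^ 2 + 3 * n + 2) / 2 := by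
  ext n
  rw [mul_sub, mul_one, map_sub, PowerSeries.coeff_mul_X_pow']
  simp only [PowerSeries.coeff_mk, L_eq]
  match n with
  | 0 => have : (cnt 0).card = 1 := by decide
         simp [this]
  | 1 => have : (cnt 1).card = 4 := by decide
         simp [this]; norm_num
  | n + 2 =>
    have t : ∀ k, ((tri k).card : ℝ) = (k + 1) * (k + 2) / 2 := fun k => by
      have : (2 : ℝ) * (tri k).card = (k + 1) * (k + 2) := by exact_mod_cast tri_card k
      linarith
    rw [if_pos (by omega), Nat.add_sub_cancel, rec2]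
    push_cast
    rw [t, t, t]; push_cast; ring

lemma s2 : (PowerSeries.mk fun n => (3 * (n : ℝ) ^ 2 + 3 * n + 2) / 2) * (1 - PowerSeries.X) ^ 3 =
    1 + PowerSeries.X + PowerSeries.X ^ 2 := by
  have : ∀ f : PowerSeries ℝ, f * (1 - PowerSeries.X) ^ 3 = f - (3 : ℝ) • (f * PowerSeries.X ^ 1) +
      (3 : ℝ) • (f * PowerSeries.X ^ 2) - f * PowerSeries.X ^ 3 := fun f => by
    simp only [PowerSeries.smul_eq_C_mul, map_ofNat]; ring
  rw [this]
  ext n
  simp only [map_sub, map_add, map_smul, PowerSeries.coeff_mul_X_pow', PowerSeries.coeff_mk,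
    PowerSeries.coeff_one, PowerSeries.coeff_X, PowerSeries.coeff_X_pow, smul_eq_mul]
  match n with
  | 0 => norm_num
  | 1 => norm_num
  | 2 => norm_num
  | n + 3 =>
    simp only [show 1 ≤ n + 3 by omega, show 2 ≤ n + 3 by omega, show 3 ≤ n + 3 by omega, if_true,
      show n + 3 - 1 = n + 2 by omega, show n + 3 - 2 = n + 1 by omega, Nat.add_sub_cancel,
      show n + 3 ≠ 0 by omega, show n + 3 ≠ 1 by omega, show n + 3 ≠ 2 by omega, if_false]
    push_cast; ring

noncomputable def h0 : ℝ[X] := X ^ 5 + 4 * X ^ 4 + 7 * X ^ 3 + 7 * X ^ 2 + 4 * X + 1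

theorem result : ∃ m a : ℕ, 1 ≤ a ∧ 3 ≤ m ∧ Odd m ∧
    ∃ h : ℝ[X], IsNumerator m a h ∧ ¬ GammaNonneg h := by
  refine ⟨3, 1, le_rfl, le_rfl, by decide, h0, ?_, ?_⟩
  · unfold IsNumerator
    have : ∀ f : PowerSeries ℝ, f * (1 - PowerSeries.X ^ 2) ^ (1 * 3 + 1) =
        f * (1 - PowerSeries.X ^ 2) * (1 - PowerSeries.X) ^ 3 * (1 + PowerSeries.X) ^ 3 :=
      fun f => by ring
    rw [this, s1, s2, h0]
    have c4 : ((4 : ℝ[X]) : PowerSeries ℝ) = 4 := map_ofNat coeToPowerSeries.ringHom 4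
    have c7 : ((7 : ℝ[X]) : PowerSeries ℝ) = 7 := map_ofNat coeToPowerSeries.ringHom 7
    simp only [coe_add, coe_mul, coe_pow, coe_X, coe_one, c4, c7]
    ring
  · rintro ⟨γ, h1, h2⟩
    have d : h0.natDegree = 5 := by unfold h0; compute_degree!
    rw [d] at h2
    have a := congrArg (eval 0) h2
    have b := congrArg (eval 1) h2
    have c := congrArg (eval (-2)) h2
    simp [h0, Finset.sum_range_succ] at a b c
    have := h1 1
    have := h1 2
    linarith

end Pool.Agent.Results.MP_308823_co.Gamma
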